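import Pool.Agent.H121.GA.IfB
import Pool.Agent.H548.MY.TopY

/-! GA-WEYB: trial functions (indicator functions of boxes on which the potential is almost
constant). -/

set_option autoImplicit false
set_option linter.unusedSectionVars false

open scoped BigOperators InnerProductSpace Topology ENNReal
open Filter MeasureTheory ProbabilityTheory

namespace Pool.Agent.H803.GA

open Pool.Agent.Y662.TR (LL Cf Mw dv hu lmk lmk_apply ll_sum ll_ext)
open Pool.Agent.H987.Y
open Pool.Agent.H410.ME (good_box bx mem_bx card_bx card_bd)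
open Pool.Agent.H548.MY (tf tf_apply tf_norm op_tf nbd card_nbd in_box)

section ind

variable {ι : Type}

open Classical in
/-- the total weight of the bonds from `x` to the complement of `Λ` -/
noncomputable def DD (k : ι → ι → ℝ) (Λ : Finset ι) (x : ι) : ℝ :=
  ∑' y, if y ∈ Λ then 0 else |k x y|

open Classical in
theorem dd_sum {h : ℝ} {k : ι → ι → ℝ} (hk : Ker h k) (Λ : Finset ι) (x : ι) :
    Summable fun y => if y ∈ Λ then 0 else |k x y| := by
  refine Summable.of_nonneg_of_le (fun y => ?_) (fun y => ?_) (hk.sm x)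
  · split_ifs
    · exact le_rfl
    · exact abs_nonneg _
  · split_ifs
    · exact abs_nonneg _
    · exact le_rfl

theorem dd_nn (k : ι → ι → ℝ) (Λ : Finset ι) (x : ι) : 0 ≤ DD k Λ x := by
  classical
  unfold DD
  refine tsum_nonneg fun y => ?_
  split_ifs
  · exact le_rfl
  · exact abs_nonneg _

theorem dd_le {h : ℝ} {k : ι → ι → ℝ} (hk : Ker h k) (Λ : Finset ι) (x : ι) : DD k Λ x ≤ h := by
  classical
  refine le_trans ?_ (hk.le x)
  unfold DD
  refine (dd_sum hk Λ x).tsum_le_tsum (fun y => ?_) (hk.sm x)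
  split_ifs
  · exact abs_nonneg _
  · exact le_rfl

/-- interior points -/
theorem dd_in {h η : ℝ} {k B : ι → ι → ℝ} (hk : Ker h k) (x : ι)
    (hB : Ker η fun x y => k x y - B x y) (Λ : Finset ι) (hΛ : ∀ y, B x y ≠ 0 → y ∈ Λ) :
    DD k Λ x ≤ η := by
  classical
  refine le_trans ?_ (hB.le x)
  unfold DD
  refine (dd_sum hk Λ x).tsum_le_tsum (fun y => ?_) (hB.sm x)
  split_ifs with hy
  · exact abs_nonneg _
  · have hb : B x y = 0 := by
      by_contra hb
      exact hy (hΛ y hb)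
    rw [hb, sub_zero]

theorem row_in {h κ : ℝ} {k : ι → ι → ℝ} (hk : Ker h k) (hκ : ∀ x, ∑' y, k x y = κ)
    (Λ : Finset ι) (x : ι) : |∑ y ∈ Λ, k x y - κ| ≤ DD k Λ x := by
  classical
  have s1 : Summable fun y => k x y := (hk.sm x).of_abs
  have s2 : Summable fun y => if y ∈ Λ then k x y else 0 :=
    summable_of_ne_finset_zero (s := Λ) fun y hy => by rw [if_neg hy]
  have e2 : ∑' y, (if y ∈ Λ then k x y else 0) = ∑ y ∈ Λ, k x y := by
    rw [tsum_eq_sum (s := Λ)]
    · exact Finset.sum_congr rfl fun y hy => if_pos hy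
    · intro y hy
      exact if_neg hy
  have e3 : ∑ y ∈ Λ, k x y - κ = ∑' y, ((if y ∈ Λ then k x y else 0) - k x y) := by
    rw [s2.tsum_sub s1, e2, hκ]
  rw [e3]
  have e4 : ∀ y, |(if y ∈ Λ then k x y else 0) - k x y| = if y ∈ Λ then 0 else |k x y| := by
    intro y
    split_ifs
    · rw [sub_self, abs_zero]
    · rw [zero_sub, abs_neg]
  have s3 : Summable fun y => ‖(if y ∈ Λ then k x y else 0) - k x y‖ := by
    simp only [Real.norm_eq_abs, e4]
    exact dd_sum hk Λ x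
  rw [← Real.norm_eq_abs]
  refine (norm_tsum_le_tsum_norm s3).trans (le_of_eq ?_)
  unfold DD
  exact tsum_congr e4

/-- the indicator function of `Λ` is almost an eigenvector -/
theorem op_norm {h κ : ℝ} {k : ι → ι → ℝ} (hk : Ker h k) (hκ : ∀ x, ∑' y, k x y = κ)
    (Λ : Finset ι) : ‖Op k (tf Λ) - (κ : ℂ) • tf Λ‖ ^ 2 ≤ 2 * h * ∑ x ∈ Λ, DD k Λ x := by
  classical
  have hh := hk.h0
  have happ : ∀ x, (Op k (tf Λ) - (κ : ℂ) • tf Λ : LL ι) x =
      ((∑ y ∈ Λ, k x y - κ * (if x ∈ Λ then 1 else 0) : ℝ) : ℂ) := by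
    intro x
    have h1 : (Op k (tf Λ) - (κ : ℂ) • tf Λ : LL ι) x = Op k (tf Λ) x - (κ : ℂ) * tf Λ x := rfl
    rw [h1, op_tf hk, tf_apply]
    split_ifs
    · push_cast
      ring
    · push_cast
      ring
  -- the bound
  let b1 : ι → ℝ := fun x => if x ∈ Λ then h * DD k Λ x else 0
  let b2 : ι → ℝ := fun x => ∑ y ∈ Λ, h * (if x ∈ Λ then 0 else |k y x|)
  have hb1 : HasSum b1 (∑ x ∈ Λ, h * DD k Λ x) := by
    have h1 : HasSum b1 (∑ x ∈ Λ, b1 x) :=
      hasSum_sum_of_ne_finset_zero fun x hx => if_neg hx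
    have h2 : ∑ x ∈ Λ, b1 x = ∑ x ∈ Λ, h * DD k Λ x :=
      Finset.sum_congr rfl fun x hx => if_pos hx
    rwa [h2] at h1
  have hb2 : HasSum b2 (∑ x ∈ Λ, h * DD k Λ x) :=
    hasSum_sum fun y _ => (dd_sum hk Λ y).hasSum.mul_left h
  have hle : ∀ x, ‖(Op k (tf Λ) - (κ : ℂ) • tf Λ : LL ι) x‖ ^ 2 ≤ b1 x + b2 x := by
    intro x
    rw [happ, Complex.norm_real, Real.norm_eq_abs]
    by_cases hx : x ∈ Λ
    · have h1 : b1 x = h * DD k Λ x := if_pos hx
      have h2 : b2 x = 0 := by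
        refine Finset.sum_eq_zero fun y _ => ?_
        rw [if_pos hx, mul_zero]
      rw [h1, h2, add_zero, if_pos hx, mul_one]
      have h3 := row_in hk hκ Λ x
      have h4 := dd_le hk Λ x
      have h5 := dd_nn k Λ x
      calc |∑ y ∈ Λ, k x y - κ| ^ 2 ≤ DD k Λ x ^ 2 := pow_le_pow_left₀ (abs_nonneg _) h3 2
        _ ≤ h * DD k Λ x := by nlinarith
    · have h1 : b1 x = 0 := if_neg hx
      have h2 : b2 x = h * ∑ y ∈ Λ, |k x y| := by
        rw [Finset.mul_sum]
        refine Finset.sum_congr rfl fun y _ => ?_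
        rw [if_neg hx, hk.sy]
      rw [h1, h2, zero_add, if_neg hx, mul_zero, sub_zero]
      have h3 : |∑ y ∈ Λ, k x y| ≤ ∑ y ∈ Λ, |k x y| := Finset.abs_sum_le_sum_abs _ _
      have h4 : ∑ y ∈ Λ, |k x y| ≤ h :=
        ((hk.sm x).sum_le_tsum Λ fun y _ => abs_nonneg _).trans (hk.le x)
      have h5 : 0 ≤ |∑ y ∈ Λ, k x y| := abs_nonneg _
      have h6 : 0 ≤ ∑ y ∈ Λ, |k x y| := Finset.sum_nonneg fun y _ => abs_nonneg _
      calc |∑ y ∈ Λ, k x y| ^ 2 ≤ (∑ y ∈ Λ, |k x y|) ^ 2 := pow_le_pow_left₀ h5 h3 2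
        _ ≤ h * ∑ y ∈ Λ, |k x y| := by nlinarith
  have h7 := hasSum_le hle (ll_sum _) (hb1.add hb2)
  rw [← Finset.mul_sum] at h7
  linarith

end ind

/-! ### boxes -/

/-- there are boxes for which the indicator functions are almost eigenvectors -/
theorem box_norm {d : ℕ} {k : Lt d → Lt d → ℝ} {h κ : ℝ} (hk : Ker h k)
    (hκ : ∀ x, ∑' y, k x y = κ)
    (happ : ∀ δ : ℝ, 0 < δ → ∃ (R : ℕ) (B : Lt d → Lt d → ℝ),
      (∀ x y, B x y ≠ 0 → ∀ i, |x i - y i| ≤ (R : ℤ)) ∧ Ker δ fun x y => k x y - B x y)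
    {ε : ℝ} (hε : 0 < ε) : ∃ L : ℕ, 0 < L ∧ ∀ a : Fin d → ℤ,
      ‖Op k (tf (bx a L)) - (κ : ℂ) • tf (bx a L)‖ ^ 2 ≤ ε * (bx a L).card := by
  classical
  have hh := hk.h0
  obtain ⟨η, hη⟩ : ∃ η, η = ε / (4 * (1 + h)) := ⟨_, rfl⟩
  have hη0 : 0 < η := by rw [hη]; positivity
  have hη1 : 2 * h * η ≤ ε / 2 := by
    rw [hη]
    rw [show 2 * h * (ε / (4 * (1 + h))) = (ε / 2) * (h / (1 + h)) by field_simp; ring]
    have h1 : h / (1 + h) ≤ 1 := by
      rw [div_le_one (by positivity)]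
      linarith
    nlinarith
  obtain ⟨R, B, hBR, hB⟩ := happ η hη0
  obtain ⟨L, hL⟩ := exists_nat_gt (8 * h ^ 2 * d * R / ε)
  have hL0 : (0 : ℝ) < L := lt_of_le_of_lt (by positivity) hL
  have hL1 : 0 < L := by exact_mod_cast hL0
  have hL2 : 2 * h * (h * (2 * d * R / L)) ≤ ε / 2 := by
    rw [div_lt_iff₀ hε] at hL
    rw [show 2 * h * (h * (2 * d * R / L)) = (4 * h ^ 2 * d * R) / L by ring, div_le_iff₀ hL0]
    linarith
  refine ⟨L, hL1, fun a => (op_norm hk hκ _).trans ?_⟩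
  have h1 : ∀ x ∈ bx a L, DD k (bx a L) x ≤ η + h * (if x ∈ nbd a L R then 1 else 0) := by
    intro x hx
    by_cases hn : x ∈ nbd a L R
    · rw [if_pos hn, mul_one]
      have := dd_le hk (bx a L) x
      linarith
    · rw [if_neg hn, mul_zero, add_zero]
      exact dd_in hk x hB _ fun y hy => in_box hx hn y (hBR x y hy)
  have hcn : ∑ x ∈ bx a L, (if x ∈ nbd a L R then (1 : ℝ) else 0) = (nbd a L R).card := by
    rw [← Finset.sum_filter, Finset.sum_const, nsmul_eq_mul, mul_one]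
    congr 2
    ext x
    rw [Finset.mem_filter]
    constructor
    · exact fun h => h.2
    · intro h
      refine ⟨?_, h⟩
      unfold nbd at h
      exact (Finset.mem_filter.1 h).1
  have hnb : ((nbd a L R).card : ℝ) ≤ (2 * d * R / L) * (bx a L).card := by
    have h5 := card_nbd a L R
    have h6 : ((nbd a L R).card : ℝ) * L ≤ 2 * d * R * (bx a L).card := by exact_mod_cast h5
    rw [div_mul_eq_mul_div, le_div_iff₀ hL0]
    exact h6
  have h2 : ∑ x ∈ bx a L, DD k (bx a L) x ≤ η * (bx a L).card + h * (nbd a L R).card := by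
    refine (Finset.sum_le_sum h1).trans (le_of_eq ?_)
    rw [Finset.sum_add_distrib, Finset.sum_const, nsmul_eq_mul, ← Finset.mul_sum, hcn]
    ring
  have hc0 : (0 : ℝ) ≤ (bx a L).card := Nat.cast_nonneg _
  calc 2 * h * ∑ x ∈ bx a L, DD k (bx a L) x
      ≤ 2 * h * (η * (bx a L).card + h * (nbd a L R).card) :=
        mul_le_mul_of_nonneg_left h2 (by positivity)
    _ ≤ 2 * h * (η * (bx a L).card + h * ((2 * d * R / L) * (bx a L).card)) := by
        gcongr
    _ = (2 * h * η + 2 * h * (h * (2 * d * R / L))) * (bx a L).card := by ring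
    _ ≤ (ε / 2 + ε / 2) * (bx a L).card :=
        mul_le_mul_of_nonneg_right (add_le_add hη1 hL2) hc0
    _ = ε * (bx a L).card := by ring

/-! ### the theorem -/

open Pool.Agent.H121.GA in
theorem weyB : S_weyB := by
  classical
  intro d k h κ hd hk hκ happ μ _ hμ lam hlam
  let i0 : Fin d := ⟨0, hd⟩
  let a : ℕ → ℕ → Fin d → ℤ := fun L j => fun i => if i = i0 then (j : ℤ) * L else 0
  have hgood : ∀ᵐ ω ∂(Measure.infinitePi fun _ : Lt d => μ), ∀ (L : ℕ) (p q : ℚ), 0 < L → p < q →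
      ∃ j, ∀ x ∈ bx (a L j) L, ω x ∈ Set.Ioo (p : ℝ) (q : ℝ) := by
    rw [ae_all_iff]
    intro L
    rw [ae_all_iff]
    intro p
    rw [ae_all_iff]
    intro q
    by_cases hL : 0 < L
    · by_cases hpq : p < q
      · have hdis : Pairwise fun i j => Disjoint (bx (a L i) L) (bx (a L j) L) := by
          intro j j' hjj
          rw [Finset.disjoint_left]
          intro x h1 h2
          have h3 := mem_bx.1 h1 i0
          have h4 := mem_bx.1 h2 i0
          simp only [a, if_true] at h3 h4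
          have h5 : (j : ℤ) < j' + 1 := by
            by_contra h
            push Not at h
            nlinarith
          have h6 : (j' : ℤ) < j + 1 := by
            by_contra h
            push Not at h
            nlinarith
          exact hjj (by omega)
        have hcard : ∀ j, (bx (a L j) L).card ≤ L ^ d := fun j => (card_bx (a L j) L).le
        have h1 := good_box μ (Set.Ioo (p : ℝ) (q : ℝ)) measurableSet_Ioo
          (hμ p q (by exact_mod_cast hpq)) (fun j => bx (a L j) L) hdis _ hcard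
        filter_upwards [h1] with ω hω _ _
        exact hω
      · exact Eventually.of_forall fun ω _ h => absurd h hpq
    · exact Eventually.of_forall fun ω h => absurd h hL
  filter_upwards [hgood] with ω hω
  intro E r hr
  obtain ⟨L, hL, hbox⟩ := box_norm hk hκ happ (ε := (r / 2) ^ 2) (by positivity)
  have hl0 : 0 < |lam| := abs_pos.2 hlam
  have hw : 0 < r / (2 * |lam|) := by positivity
  obtain ⟨p, hp1, hp2⟩ := exists_rat_btwn (show (E - κ) / lam - r / (2 * |lam|) < (E - κ) / lam by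
    linarith)
  obtain ⟨q, hq1, hq2⟩ := exists_rat_btwn (show (E - κ) / lam < (E - κ) / lam + r / (2 * |lam|) by
    linarith)
  have hpq : p < q := by exact_mod_cast hp2.trans hq1
  obtain ⟨j, hj⟩ := hω L p q hL hpq
  obtain ⟨Λ, hΛ⟩ : ∃ Λ, Λ = bx (a L j) L := ⟨_, rfl⟩
  rw [← hΛ] at hj
  have hbox' := hbox (a L j)
  rw [← hΛ] at hbox'
  have hcard : 0 < Λ.card := by
    rw [hΛ, card_bx]
    positivity
  have hcard' : (0 : ℝ) < Λ.card := by exact_mod_cast hcard
  have hu0 : tf Λ ≠ 0 := by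
    intro h0
    have h1 := tf_norm Λ
    rw [h0, norm_zero, zero_pow two_ne_zero] at h1
    linarith
  have hval : ∀ x ∈ Λ, |lam * ω x - (E - κ)| ≤ r / 2 := by
    intro x hx
    have h1 := hj x hx
    have h2 : |ω x - (E - κ) / lam| ≤ r / (2 * |lam|) := by
      rw [abs_le]
      constructor
      · linarith [h1.1]
      · linarith [h1.2]
    have h3 : lam * ω x - (E - κ) = lam * (ω x - (E - κ) / lam) := by
      field_simp
    rw [h3, abs_mul]
    calc |lam| * |ω x - (E - κ) / lam| ≤ |lam| * (r / (2 * |lam|)) :=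
          mul_le_mul_of_nonneg_left h2 hl0.le
      _ = r / 2 := by field_simp
  -- the potential part
  have hwsum : Summable fun x : Lt d =>
      ‖(if x ∈ Λ then ((lam * ω x - (E - κ) : ℝ) : ℂ) else 0)‖ ^ 2 := by
    refine summable_of_ne_finset_zero (s := Λ) fun x hx => ?_
    rw [if_neg hx, norm_zero, zero_pow two_ne_zero]
  let w : LL (Lt d) := lmk (fun x => if x ∈ Λ then ((lam * ω x - (E - κ) : ℝ) : ℂ) else 0) hwsum
  have hwn : ‖w‖ ^ 2 ≤ (r / 2) ^ 2 * Λ.card := by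
    have h1 : HasSum (fun x => ‖w x‖ ^ 2) (∑ x ∈ Λ, ‖w x‖ ^ 2) :=
      hasSum_sum_of_ne_finset_zero fun x hx => by
        show ‖(if x ∈ Λ then ((lam * ω x - (E - κ) : ℝ) : ℂ) else 0)‖ ^ 2 = 0
        rw [if_neg hx, norm_zero, zero_pow two_ne_zero]
    rw [(ll_sum w).unique h1]
    calc ∑ x ∈ Λ, ‖w x‖ ^ 2 ≤ ∑ x ∈ Λ, (r / 2) ^ 2 := by
          refine Finset.sum_le_sum fun x hx => ?_
          show ‖(if x ∈ Λ then ((lam * ω x - (E - κ) : ℝ) : ℂ) else 0)‖ ^ 2 ≤ _
          rw [if_pos hx, Complex.norm_real, Real.norm_eq_abs]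
          exact pow_le_pow_left₀ (abs_nonneg _) (hval x hx) 2
      _ = (r / 2) ^ 2 * Λ.card := by
          rw [Finset.sum_const, nsmul_eq_mul]
          ring
  have hn : ∀ v : LL (Lt d), ‖v‖ ^ 2 ≤ (r / 2) ^ 2 * Λ.card → ‖v‖ ≤ r / 2 * ‖tf Λ‖ := by
    intro v hv
    refine le_of_sq_le_sq (by rw [mul_pow, tf_norm]; exact hv) (by positivity)
  refine ⟨tf Λ, (Op k (tf Λ) - (κ : ℂ) • tf Λ) + w, hu0, ?_, ?_⟩
  · calc ‖(Op k (tf Λ) - (κ : ℂ) • tf Λ) + w‖
        ≤ ‖Op k (tf Λ) - (κ : ℂ) • tf Λ‖ + ‖w‖ := norm_add_le _ _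
      _ ≤ r / 2 * ‖tf Λ‖ + r / 2 * ‖tf Λ‖ := add_le_add (hn _ hbox') (hn _ hwn)
      _ = r * ‖tf Λ‖ := by ring
  · intro x
    have h1 : ((Op k (tf Λ) - (κ : ℂ) • tf Λ) + w : LL (Lt d)) x =
        Op k (tf Λ) x - (κ : ℂ) * tf Λ x +
          (if x ∈ Λ then ((lam * ω x - (E - κ) : ℝ) : ℂ) else 0) := rfl
    rw [h1, tf_apply]
    split_ifs
    · push_cast
      ring
    · ring

end Pool.Agent.H803.GA
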